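import Pool.Agent.W662.CB.Stmts

/-!
# CB-A3: fixed elements are in the centralizer
-/

set_option autoImplicit false

open MeasureTheory Filter Topology Complex
open scoped InnerProductSpace ENNReal

namespace Pool.Agent.W418.CB.A3

open Pool.Agent.W662.CB

theorem a3 (h2 : S_A2) : S_A3 := by
  intro H _ _ _ M ξ U hU x hx hfix
  exact h2 H M ξ U hU (fun _ => x)
    { mem := fun _ => hx
      diff := fun v => differentiable_const (x v)
      diff' := fun v => differentiable_const (star x v)
      ext := fun t => (hfix t).symm
      bdd := fun _ => ⟨‖x‖, fun _ _ => le_rfl⟩ } 0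

end Pool.Agent.W418.CB.A3
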